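import Mathlib

set_option autoImplicit false

namespace Pool.Agent.Results.MP_17aaef_lc.CountablyGenerated

open Cardinal MeasurableSpace MeasureTheory

variable {E : Type}

/-- The box `A_{m_1} × ⋯ × A_{m_n}`. -/
def box (A : ℕ → Set E) (n : ℕ) (m : Fin n → ℕ) : Set (Fin n → E) := {x | ∀ i, x i ∈ A (m i)}

/-- The sigma-algebra `𝓡_n` on `E^n` generated by the boxes. -/
@[reducible] def boxAlg (A : ℕ → Set E) (n : ℕ) : MeasurableSpace (Fin n → E) :=
  generateFrom (Set.range (box A n))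

/-- The projection `E^{n+1} → E^n` deleting the last coordinate. -/
def del (n : ℕ) (x : Fin (n + 1) → E) : Fin n → E := fun i => x i.castSucc

/-- `projClass A k n` is the family `𝓟_{k+1}(E^n)`. -/
def projClass (A : ℕ → Set E) : ℕ → (n : ℕ) → Set (Set (Fin n → E))
  | 0, n => {T | ∃ S, MeasurableSet[boxAlg A (n + 1)] S ∧ T = del n '' S}
  | k + 1, n => {T | ∃ S ∈ projClass A k (n + 1), T = del n '' Sᶜ}

/-- `T` is a projective set of class `k + 1` over `(A_m)`. -/
def ProjectiveOfClass (A : ℕ → Set E) (k : ℕ) (T : Set E) : Prop :=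
  {x : Fin 1 → E | x 0 ∈ T} ∈ projClass A k 1

/-- The statement of the question for the set `E`. -/
def Question (E : Type) : Prop :=
  ∀ A : ℕ → Set E, ∃ B : ℕ → Set E, ∀ T : Set E,
    (∃ k, ProjectiveOfClass A k T) → MeasurableSet[generateFrom (Set.range B)] T

/-- The same for the projective sets of the first class only. -/
def QuestionOne (E : Type) : Prop :=
  ∀ A : ℕ → Set E, ∃ B : ℕ → Set E, ∀ T : Set E,
    ProjectiveOfClass A 0 T → MeasurableSet[generateFrom (Set.range B)] T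

/-- Every family of at most continuum many subsets of `E` lies in a countably generated
sigma-algebra. -/
def Capture (E : Type) : Prop :=
  ∀ F : Set (Set E), #F ≤ 𝔠 → ∃ B : ℕ → Set E, ∀ T ∈ F, MeasurableSet[generateFrom (Set.range B)] T

/-- The sigma-algebra on `E × E` generated by all rectangles `P × Q` with arbitrary sides. -/
@[reducible] def rectAlg (E : Type) : MeasurableSpace (E × E) :=
  generateFrom {S | ∃ P Q : Set E, S = P ×ˢ Q}

/-- Every subset of `E × E` lies in the sigma-algebra generated by the rectangles. -/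
def RectangleProperty (E : Type) : Prop :=
  ∀ S : Set (E × E), MeasurableSet[rectAlg E] S

/-! ### Sets of class one code arbitrary families -/

lemma box_range_coord (A : ℕ → Set E) (hA : A 0 = Set.univ) (i : Fin 2) (m : ℕ) :
    MeasurableSet[boxAlg A 2] {w : Fin 2 → E | w i ∈ A m} := by
  apply measurableSet_generateFrom
  refine ⟨fun j => if j = i then m else 0, ?_⟩
  ext w
  simp only [box, Set.mem_ofPred_eq]
  constructor
  · intro h
    have := h i
    simpa using this
  · intro h j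
    by_cases hj : j = i
    · subst hj; simpa using h
    · simp [hj, hA]

/-- The interleaving of two points. -/
noncomputable def inter (e : E ≃ (ℕ → Bool)) (x y : E) : E :=
  e.symm (fun m => if m % 2 = 0 then e x (m / 2) else e y (m / 2))

lemma inter_even (e : E ≃ (ℕ → Bool)) (x y : E) (m : ℕ) : e (inter e x y) (2 * m) = e x m := by
  simp [inter]

lemma inter_odd (e : E ≃ (ℕ → Bool)) (x y : E) (m : ℕ) :
    e (inter e x y) (2 * m + 1) = e y m := by
  have h1 : (2 * m + 1) % 2 = 1 := by omega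
  have h2 : (2 * m + 1) / 2 = m := by omega
  simp [inter, h1, h2]

lemma eq_inter (e : E ≃ (ℕ → Bool)) (x y z : E) (h1 : ∀ m, e z (2 * m) = e x m)
    (h2 : ∀ m, e z (2 * m + 1) = e y m) : z = inter e x y := by
  apply e.injective
  funext m
  rcases Nat.even_or_odd' m with ⟨c, rfl | rfl⟩
  · rw [inter_even, h1]
  · rw [inter_odd, h2]

lemma capture_of_one (hE : #E = 𝔠) (h : QuestionOne E) : Capture E := by
  intro F hF
  rcases F.eq_empty_or_nonempty with hF0 | ⟨T0, hT0⟩
  · exact ⟨fun _ => ∅, fun T hT => by rw [hF0] at hT; exact absurd hT (Set.notMem_empty T)⟩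
  obtain ⟨e⟩ : Nonempty (E ≃ (ℕ → Bool)) := by
    rw [← Cardinal.eq, hE]
    simp
  have hsurj : ∃ g : E → F, Function.Surjective g := by
    have : Nonempty F := ⟨⟨T0, hT0⟩⟩
    rw [← hE] at hF
    obtain ⟨j⟩ := hF
    exact ⟨Function.invFun j, Function.invFun_surjective j.injective⟩
  obtain ⟨g, hg⟩ := hsurj
  -- the sequence
  let U : Set E := {z | ∃ x y, z = inter e x y ∧ y ∈ (g x : Set E)}
  let A : ℕ → Set E := fun m =>
    match m with
    | 0 => Set.univ
    | 1 => U
    | m + 2 => {z | e z m = true}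
  obtain ⟨B, hB⟩ := h A
  refine ⟨B, ?_⟩
  intro T hT
  obtain ⟨x, hx⟩ := hg ⟨T, hT⟩
  apply hB
  have hA0 : A 0 = Set.univ := rfl
  have hcoord : ∀ (i : Fin 2) (m : ℕ), MeasurableSet[boxAlg A 2] {w : Fin 2 → E | e (w i) m = true} :=
    fun i m => box_range_coord A hA0 i (m + 2)
  have heqc : ∀ (i : Fin 2) (m : ℕ) (b : Bool),
      MeasurableSet[boxAlg A 2] {w : Fin 2 → E | e (w i) m = b} := by
    intro i m b
    cases b
    · have h1 : {w : Fin 2 → E | e (w i) m = false} = {w : Fin 2 → E | e (w i) m = true}ᶜ := by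
        ext w; simp
      rw [h1]
      exact (hcoord i m).compl
    · exact hcoord i m
  have heq2 : ∀ (m k : ℕ), MeasurableSet[boxAlg A 2] {w : Fin 2 → E | e (w 1) m = e (w 0) k} := by
    intro m k
    have h1 : {w : Fin 2 → E | e (w 1) m = e (w 0) k} =
        ({w | e (w 1) m = true} ∩ {w | e (w 0) k = true}) ∪
        ({w | e (w 1) m = false} ∩ {w | e (w 0) k = false}) := by
      ext w
      simp only [Set.mem_ofPred_eq, Set.mem_union, Set.mem_inter_iff]
      cases e (w 1) m <;> cases e (w 0) k <;> simp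
    rw [h1]
    exact ((heqc 1 m true).inter (heqc 0 k true)).union ((heqc 1 m false).inter (heqc 0 k false))
  have hS : MeasurableSet[boxAlg A 2] ((⋂ m : ℕ, {w : Fin 2 → E | e (w 1) (2 * m) = e x m}) ∩
      ((⋂ m : ℕ, {w : Fin 2 → E | e (w 1) (2 * m + 1) = e (w 0) m}) ∩ {w : Fin 2 → E | w 1 ∈ A 1})) :=
    (MeasurableSet.iInter fun m => heqc 1 (2 * m) (e x m)).inter
      ((MeasurableSet.iInter fun m => heq2 (2 * m + 1) m).inter (box_range_coord A hA0 1 1))
  refine ⟨_, hS, ?_⟩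
  ext t
  simp only [Set.mem_ofPred_eq, Set.mem_image, Set.mem_inter_iff, Set.mem_iInter]
  constructor
  · intro ht
    refine ⟨![t 0, inter e x (t 0)], ⟨?_, ?_, ?_⟩, ?_⟩
    · intro m; simp [inter_even]
    · intro m; simp [inter_odd]
    · show inter e x (t 0) ∈ U
      exact ⟨x, t 0, rfl, by rw [hx]; exact ht⟩
    · funext i
      have : i = 0 := Subsingleton.elim _ _
      subst this
      rfl
  · rintro ⟨w, ⟨h1, h2, h3⟩, rfl⟩
    have h4 : w 1 = inter e x (w 0) := eq_inter e x (w 0) (w 1) h1 h2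
    obtain ⟨x', y', h5, h6⟩ : w 1 ∈ U := h3
    have h7 : inter e x (w 0) = inter e x' y' := h4.symm.trans h5
    have h8 : x = x' := by
      apply e.injective
      funext m
      rw [← inter_even e x (w 0) m, h7, inter_even]
    have h9 : w 0 = y' := by
      apply e.injective
      funext m
      rw [← inter_odd e x (w 0) m, h7, inter_odd]
    show w 0 ∈ T
    rw [h9]
    rw [← h8, hx] at h6
    exact h6

/-! ### Counting the projective sets -/

lemma mk_projClass_le (A : ℕ → Set E) (k n : ℕ) : #(projClass A k n) ≤ 𝔠 := by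
  induction k generalizing n with
  | zero =>
    have h1 : projClass A 0 n ⊆
        (fun S => del n '' S) '' {S | MeasurableSet[boxAlg A (n + 1)] S} := by
      rintro T ⟨S, hS, rfl⟩
      exact ⟨S, hS, rfl⟩
    refine (mk_le_mk_of_subset h1).trans (mk_image_le.trans ?_)
    apply cardinal_measurableSet_le_continuum
    refine mk_range_le.trans ?_
    refine (mk_le_aleph0 (α := Fin (n + 1) → ℕ)).trans aleph0_le_continuum
  | succ k ih =>
    have h1 : projClass A (k + 1) n ⊆ (fun S => del n '' Sᶜ) '' (projClass A k (n + 1)) := by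
      rintro T ⟨S, hS, rfl⟩
      exact ⟨S, hS, rfl⟩
    exact (mk_le_mk_of_subset h1).trans (mk_image_le.trans (ih (n + 1)))

lemma question_of_capture (h : Capture E) : Question E := by
  intro A
  have hcard : #{T : Set E | ∃ k, ProjectiveOfClass A k T} ≤ 𝔠 := by
    have h1 : {T : Set E | ∃ k, ProjectiveOfClass A k T} =
        ⋃ k : ℕ, {T : Set E | ProjectiveOfClass A k T} := by
      ext T; simp
    rw [h1]
    refine (mk_iUnion_le_sum_mk).trans ?_
    refine (sum_le_mk_mul_iSup _).trans ?_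
    have h2 : ∀ k : ℕ, #{T : Set E | ProjectiveOfClass A k T} ≤ 𝔠 := by
      intro k
      refine le_trans ?_ (mk_projClass_le A k 1)
      refine mk_le_of_injective (f := fun T : {T : Set E | ProjectiveOfClass A k T} =>
        (⟨{x : Fin 1 → E | x 0 ∈ (T : Set E)}, T.2⟩ : projClass A k 1)) ?_
      rintro ⟨T, hT⟩ ⟨T', hT'⟩ hTT
      apply Subtype.ext
      have h3 := congrArg Subtype.val hTT
      ext y
      have h4 := congrArg (fun S : Set (Fin 1 → E) => (fun _ => y) ∈ S) h3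
      simpa using h4
    calc #ℕ * ⨆ k, #{T : Set E | ProjectiveOfClass A k T} ≤ 𝔠 * 𝔠 := by
          gcongr
          · exact (mk_le_aleph0).trans aleph0_le_continuum
          · exact ciSup_le' h2
      _ = 𝔠 := continuum_mul_self
  obtain ⟨B, hB⟩ := h _ hcard
  exact ⟨B, fun T hT => hB T hT⟩

lemma one_of_question (h : Question E) : QuestionOne E := by
  intro A
  obtain ⟨B, hB⟩ := h A
  exact ⟨B, fun T hT => hB T ⟨0, hT⟩⟩

/-! ### Rectangles -/

lemma section_capture {S : Set (E × E)}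
    (hS : MeasurableSet[rectAlg E] S) :
    ∃ B : ℕ → Set E, ∀ x, MeasurableSet[generateFrom (Set.range B)] {y | (x, y) ∈ S} := by
  induction S, hS using generateFrom_induction with
  | hC S hS _ =>
    obtain ⟨P, Q, rfl⟩ := hS
    refine ⟨fun _ => Q, fun x => ?_⟩
    by_cases hx : x ∈ P
    · have h1 : {y | (x, y) ∈ P ×ˢ Q} = Q := by ext y; simp [hx]
      rw [h1]
      exact measurableSet_generateFrom ⟨0, rfl⟩
    · have h1 : {y | (x, y) ∈ P ×ˢ Q} = ∅ := by ext y; simp [hx]
      rw [h1]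
      exact @MeasurableSet.empty _ (generateFrom _)
  | empty =>
    refine ⟨fun _ => ∅, fun x => ?_⟩
    have h1 : {y | (x, y) ∈ (∅ : Set (E × E))} = ∅ := by ext y; simp
    rw [h1]
    exact @MeasurableSet.empty _ (generateFrom _)
  | compl S _ ih =>
    obtain ⟨B, hB⟩ := ih
    refine ⟨B, fun x => ?_⟩
    exact (hB x).compl
  | iUnion f _ ih =>
    choose B hB using ih
    refine ⟨fun n => B n.unpair.1 n.unpair.2, fun x => ?_⟩
    have h1 : {y | (x, y) ∈ ⋃ i, f i} = ⋃ i, {y | (x, y) ∈ f i} := by ext y; simp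
    rw [h1]
    refine MeasurableSet.iUnion fun i => ?_
    refine generateFrom_mono ?_ _ (hB i x)
    rintro _ ⟨j, rfl⟩
    exact ⟨Nat.pair i j, by simp⟩

lemma capture_of_rect (hE : #E = 𝔠)
    (h : RectangleProperty E) : Capture E := by
  intro F hF
  rcases F.eq_empty_or_nonempty with hF0 | ⟨T0, hT0⟩
  · exact ⟨fun _ => ∅, fun T hT => by rw [hF0] at hT; exact absurd hT (Set.notMem_empty T)⟩
  have hsurj : ∃ g : E → F, Function.Surjective g := by
    have : Nonempty F := ⟨⟨T0, hT0⟩⟩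
    rw [← hE] at hF
    obtain ⟨j⟩ := hF
    exact ⟨Function.invFun j, Function.invFun_surjective j.injective⟩
  obtain ⟨g, hg⟩ := hsurj
  obtain ⟨B, hB⟩ := section_capture (h {p | p.2 ∈ (g p.1 : Set E)})
  refine ⟨B, fun T hT => ?_⟩
  obtain ⟨x, hx⟩ := hg ⟨T, hT⟩
  have h1 := hB x
  have h2 : {y | (x, y) ∈ {p : E × E | p.2 ∈ (g p.1 : Set E)}} = T := by
    ext y
    simp only [Set.mem_ofPred_eq, hx]
  rwa [h2] at h1

/-! ### Levels and the converse -/

lemma rect_prod (P Q : Set E) : MeasurableSet[rectAlg E] (P ×ˢ Q) :=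
  measurableSet_generateFrom ⟨P, Q, rfl⟩

lemma mem_rec {X : Type} {s : Set (Set X)} {α : Ordinal.{0}} {t : Set X}
    (ht : t ∈ generateMeasurableRec s α) :
    t ∈ s ∨ t = ∅ ∨ (∃ j < α, tᶜ ∈ generateMeasurableRec s j) ∨
      (∃ f : ℕ → Set X, (∀ n, ∃ j < α, f n ∈ generateMeasurableRec s j) ∧ t = ⋃ n, f n) := by
  unfold generateMeasurableRec at ht
  rcases ht with (((ht | rfl) | ht) | ⟨f, rfl⟩)
  · exact Or.inl ht
  · exact Or.inr (Or.inl rfl)
  · simp_rw [Set.mem_image, Set.mem_iUnion₂] at ht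
    obtain ⟨u, ⟨⟨j, hj, hj'⟩, rfl⟩⟩ := ht
    exact Or.inr (Or.inr (Or.inl ⟨j, hj, by rwa [compl_compl]⟩))
  · refine Or.inr (Or.inr (Or.inr ⟨fun n => (f n).1, fun n => ?_, rfl⟩))
    obtain ⟨j, hj, hj'⟩ := Set.mem_iUnion₂.1 (f n).2
    exact ⟨j, hj, hj'⟩

lemma preimage_rec {X Y : Type} (f : Y → X) (s : Set (Set X)) (s' : Set (Set Y))
    (hs : ∀ t ∈ s, f ⁻¹' t ∈ s') (α : Ordinal.{0}) :
    ∀ t ∈ generateMeasurableRec s α, f ⁻¹' t ∈ generateMeasurableRec s' α := by
  induction α using WellFoundedLT.induction with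
  | ind α ih =>
    intro t ht
    rcases mem_rec ht with h | rfl | ⟨j, hj, h⟩ | ⟨g, hg, rfl⟩
    · exact self_subset_generateMeasurableRec s' α (hs t h)
    · exact empty_mem_generateMeasurableRec s' α
    · have h1 := ih j hj _ h
      have h2 := compl_mem_generateMeasurableRec hj h1
      rwa [Set.preimage_compl, compl_compl] at h2
    · rw [Set.preimage_iUnion]
      apply iUnion_mem_generateMeasurableRec
      intro n
      obtain ⟨j, hj, h⟩ := hg n
      exact ⟨j, hj, ih j hj _ h⟩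

lemma countable_Iio (α : Ordinal.{0}) (hα : α < Ordinal.omega 1) : Countable (Set.Iio α) := by
  rw [← Cardinal.mk_le_aleph0_iff, Cardinal.mk_Iio_ordinal]
  have h1 : α.card < ℵ₁ := by
    rw [← Cardinal.lt_ord, Cardinal.ord_aleph]
    exact hα
  rw [← Cardinal.succ_aleph0, Order.lt_succ_iff] at h1
  have h2 := Cardinal.lift_le.{1}.2 h1
  rwa [Cardinal.lift_aleph0] at h2

lemma rect_of_bounded (C : ℕ → Set E) (α : Ordinal.{0}) (hα : α < Ordinal.omega 1) :
    ∀ (P : Set E) (H : Set (E × E)),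
      (∀ x ∈ P, {y | (x, y) ∈ H} ∈ generateMeasurableRec (Set.range C) α) →
      MeasurableSet[rectAlg E] (H ∩ (P ×ˢ Set.univ)) := by
  induction α using WellFoundedLT.induction with
  | ind α ih =>
    intro P H hP
    have := countable_Iio α hα
    -- the pieces
    let P1 : ℕ → Set E := fun n => {x | x ∈ P ∧ {y | (x, y) ∈ H} = C n}
    let P3 : Set.Iio α → Set E := fun j =>
      {x | x ∈ P ∧ {y | (x, y) ∈ H}ᶜ ∈ generateMeasurableRec (Set.range C) j.1}
    let P4 : Set E := {x | x ∈ P ∧ ∃ f : ℕ → Set E,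
      (∀ n, ∃ j : Set.Iio α, f n ∈ generateMeasurableRec (Set.range C) j.1) ∧
        {y | (x, y) ∈ H} = ⋃ n, f n}
    have hP4 : ∀ x : P4, ∃ f : ℕ → Set E,
      (∀ n, ∃ j : Set.Iio α, f n ∈ generateMeasurableRec (Set.range C) j.1) ∧
        {y | (x.1, y) ∈ H} = ⋃ n, f n := fun x => x.2.2
    choose f hf hfu using hP4
    choose j hj using hf
    let G : ℕ → Set (E × E) := fun n => {p | ∃ h : p.1 ∈ P4, p.2 ∈ f ⟨p.1, h⟩ n}
    let P5 : ℕ → Set.Iio α → Set E := fun n i => {x | ∃ h : x ∈ P4, j ⟨x, h⟩ n = i}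
    have key : H ∩ (P ×ˢ Set.univ) = (⋃ n, P1 n ×ˢ C n) ∪
        (⋃ i : Set.Iio α, (P3 i ×ˢ Set.univ) ∩ (Hᶜ ∩ (P3 i ×ˢ Set.univ))ᶜ) ∪
        (⋃ n, ⋃ i : Set.Iio α, G n ∩ (P5 n i ×ˢ Set.univ)) := by
      ext ⟨x, y⟩
      constructor
      · rintro ⟨hH, hx, -⟩
        have hx : x ∈ P := hx
        rcases mem_rec (hP x hx) with h | h | ⟨i, hi, h⟩ | ⟨g, hg, h⟩
        · obtain ⟨n, hn⟩ := h
          left; left
          refine Set.mem_iUnion.2 ⟨n, ⟨hx, hn.symm⟩, ?_⟩
          show y ∈ C n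
          rw [hn]; exact hH
        · exfalso
          have : y ∈ ({y | (x, y) ∈ H} : Set E) := hH
          rw [h] at this
          exact this
        · left; right
          refine Set.mem_iUnion.2 ⟨⟨i, hi⟩, ⟨⟨hx, h⟩, trivial⟩, ?_⟩
          rintro ⟨h1, -⟩
          exact h1 hH
        · right
          have hx4 : x ∈ P4 := ⟨hx, g, fun n => by
            obtain ⟨i, hi, hi'⟩ := hg n
            exact ⟨⟨i, hi⟩, hi'⟩, h⟩
          have h1 : y ∈ ({y | (x, y) ∈ H} : Set E) := hH
          rw [hfu ⟨x, hx4⟩] at h1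
          obtain ⟨n, hn⟩ := Set.mem_iUnion.1 h1
          refine Set.mem_iUnion.2 ⟨n, Set.mem_iUnion.2 ⟨j ⟨x, hx4⟩ n, ⟨hx4, hn⟩, ⟨hx4, rfl⟩, trivial⟩⟩
      · rintro ((h | h) | h)
        · obtain ⟨n, ⟨hx, hn⟩, hy⟩ := Set.mem_iUnion.1 h
          refine ⟨?_, hx, trivial⟩
          have hy : y ∈ C n := hy
          have : y ∈ ({y | (x, y) ∈ H} : Set E) := by
            have hn : ({y | (x, y) ∈ H} : Set E) = C n := hn
            rw [hn]; exact hy
          exact this
        · obtain ⟨i, ⟨⟨hx, hi⟩, -⟩, h2⟩ := Set.mem_iUnion.1 h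
          refine ⟨?_, hx, trivial⟩
          by_contra hH
          exact h2 ⟨hH, ⟨hx, hi⟩, trivial⟩
        · obtain ⟨n, h⟩ := Set.mem_iUnion.1 h
          obtain ⟨i, ⟨hx4, hn⟩, -⟩ := Set.mem_iUnion.1 h
          refine ⟨?_, hx4.1, trivial⟩
          have : y ∈ ({y | (x, y) ∈ H} : Set E) := by
            rw [hfu ⟨x, hx4⟩]
            exact Set.mem_iUnion.2 ⟨n, hn⟩
          exact this
    rw [key]
    refine ((MeasurableSet.iUnion fun n => rect_prod _ _).union
      (MeasurableSet.iUnion fun i => ?_)).union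
      (MeasurableSet.iUnion fun n => MeasurableSet.iUnion fun i => ?_)
    · refine (rect_prod _ _).inter (MeasurableSet.compl ?_)
      exact ih i.1 i.2 (lt_trans i.2 hα) (P3 i) Hᶜ (fun x hx => hx.2)
    · refine ih i.1 i.2 (lt_trans i.2 hα) (P5 n i) (G n) ?_
      rintro x ⟨hx4, hi⟩
      have h1 : {y | (x, y) ∈ G n} = f ⟨x, hx4⟩ n := by
        ext y
        constructor
        · rintro ⟨_, h⟩; exact h
        · intro h; exact ⟨hx4, h⟩
      rw [h1, ← hi]
      exact hj _ n

lemma capture_congr {X Y : Type} (e : X ≃ Y) (h : Capture Y) : Capture X := by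
  intro F hF
  obtain ⟨B, hB⟩ := h ((fun T => e '' T) '' F) (mk_image_le.trans hF)
  refine ⟨fun n => e ⁻¹' (B n), fun T hT => ?_⟩
  have h4 := hB (e '' T) ⟨T, hT, rfl⟩
  have h5 : MeasurableSet[(generateFrom (Set.range B)).comap e] T :=
    ⟨_, h4, Set.preimage_image_eq _ e.injective⟩
  rw [comap_generateFrom] at h5
  refine generateFrom_mono ?_ _ h5
  rintro _ ⟨_, ⟨n, rfl⟩, rfl⟩
  exact ⟨n, rfl⟩

lemma rect_of_capture (hE : #E = 𝔠) (h2 : (2 : Cardinal.{0}) ^ (ℵ₁ : Cardinal.{0}) = 𝔠)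
    (h : Capture E) : RectangleProperty E := by
  intro H
  by_contra hH
  let Ω : Type := (Ordinal.omega.{0} 1).ToType
  have hΩ : #Ω = ℵ₁ := by
    show #((Ordinal.omega.{0} 1).ToType) = ℵ₁
    simp
  have hΩE : #(Ω × E) = 𝔠 := by
    rw [mk_prod, lift_id, lift_id, hΩ, hE]
    apply mul_eq_right aleph0_le_continuum aleph_one_le_continuum
    exact (aleph_pos 1).ne'
  obtain ⟨e⟩ : Nonempty ((Ω × E) ≃ E) := by rw [← Cardinal.eq, hΩE, hE]
  have hcard : #(Ω → E) ≤ 𝔠 := by
    rw [← power_def, hE, hΩ, ← two_power_aleph0, ← power_mul, aleph0_mul_aleph, h2]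
    simp
  obtain ⟨B, hB⟩ := capture_congr e h
    (Set.range (fun g : Ω → E => {p : Ω × E | (g p.1, p.2) ∈ H})) (mk_range_le.trans hcard)
  have hno : ∀ ξ : Ω, ∃ x : E, {y | (x, y) ∈ H} ∉
      generateMeasurableRec (Set.range (fun n => (fun y => (ξ, y)) ⁻¹' (B n)))
        ((ξ : Set.Iio (Ordinal.omega.{0} 1)) : Ordinal.{0}) := by
    intro ξ
    by_contra hcon
    push Not at hcon
    have h3 := rect_of_bounded (fun n => (fun y => (ξ, y)) ⁻¹' (B n)) _
      (ξ : Set.Iio (Ordinal.omega.{0} 1)).2 Set.univ H (fun x _ => hcon x)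
    rw [Set.univ_prod_univ, Set.inter_univ] at h3
    exact hH h3
  choose g hg using hno
  have h4 := hB _ ⟨g, rfl⟩
  have h5 : {p : Ω × E | (g p.1, p.2) ∈ H} ∈ generateMeasurableRec (Set.range B) (Ordinal.omega.{0} 1) := by
    rw [← generateMeasurable_eq_rec]
    exact h4
  rw [generateMeasurableRec_omega_one, Set.mem_iUnion₂] at h5
  obtain ⟨α, hα, h6⟩ := h5
  let ξ : Ω := Ordinal.ToType.mk ⟨α, hα⟩
  apply hg ξ
  have h7 := preimage_rec (fun y : E => (ξ, y)) (Set.range B)
    (Set.range (fun n => (fun y => (ξ, y)) ⁻¹' (B n))) (by rintro _ ⟨n, rfl⟩; exact ⟨n, rfl⟩) α _ h6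
  have h8 : ((ξ : Set.Iio (Ordinal.omega.{0} 1)) : Ordinal.{0}) = α := by
    simp [ξ]
  rw [h8]
  exact h7

/-! ### Sets of cardinality at most aleph one -/

lemma graph_meas {X : Type} (α β : X → X) (κ : X → Set ℕ) (hκ : Function.Injective κ) :
    MeasurableSet[rectAlg X] {p : X × X | α p.1 = β p.2} := by
  have key : {p : X × X | α p.1 = β p.2} = ⋂ n : ℕ,
      (({u | n ∈ κ (α u)} ×ˢ {v | n ∈ κ (β v)}) ∪ ({u | n ∉ κ (α u)} ×ˢ {v | n ∉ κ (β v)})) := by
    ext p
    simp only [Set.mem_ofPred_eq, Set.mem_iInter, Set.mem_union, Set.mem_prod]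
    constructor
    · intro h n
      rw [h]
      tauto
    · intro h
      apply hκ
      ext n
      have := h n
      tauto
  rw [key]
  exact MeasurableSet.iInter fun n => (rect_prod _ _).union (rect_prod _ _)

lemma rect_aleph_one (hE : #E = ℵ₁) : RectangleProperty E := by
  intro S
  obtain ⟨r, wo, hr⟩ := Cardinal.exists_ord_eq E
  have hcount : ∀ v : E, ({u | r u v} : Set E).Countable := by
    intro v
    rw [← Cardinal.le_aleph0_iff_set_countable]
    have h1 := Cardinal.card_typein_lt v hr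
    have h2 : #{u | r u v} < ℵ₁ := by
      refine lt_of_le_of_lt (le_of_eq ?_) (lt_of_lt_of_le h1 hE.le)
      exact Ordinal.card_typein (r := r) v
    rw [← Cardinal.succ_aleph0] at h2
    exact Order.lt_succ_iff.mp h2
  have hcount' : ∀ v : E, (insert v {u | r u v} : Set E).Countable := fun v =>
    (hcount v).insert v
  have hex : ∀ v : E, ∃ f : ℕ → E, (insert v {u | r u v} : Set E) = Set.range f := fun v =>
    (hcount' v).exists_eq_range (Set.insert_nonempty _ _)
  choose f hf using hex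
  obtain ⟨κ, hκ⟩ : ∃ κ : E → Set ℕ, Function.Injective κ := by
    have h1 : #E ≤ #(Set ℕ) := by
      refine hE.le.trans ?_
      rw [Cardinal.mk_set, Cardinal.mk_nat, Cardinal.two_power_aleph0]
      exact Cardinal.aleph_one_le_continuum
    obtain ⟨e⟩ := h1
    exact ⟨e, e.injective⟩
  have key : S = (⋃ n : ℕ, ({p : E × E | id p.1 = f p.2 n} ∩
        (Set.univ ×ˢ {v | (f v n, v) ∈ S}))) ∪
      (⋃ n : ℕ, ({p : E × E | f p.1 n = id p.2} ∩ ({u | (u, f u n) ∈ S} ×ˢ Set.univ))) := by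
    ext ⟨u, v⟩
    simp only [Set.mem_union, Set.mem_iUnion, Set.mem_inter_iff, Set.mem_ofPred_eq, Set.mem_prod,
      Set.mem_univ, true_and, and_true, id_eq]
    constructor
    · intro h
      rcases @trichotomous _ r _ u v with h1 | h1 | h1
      · left
        have h2 : u ∈ (insert v {u | r u v} : Set E) := Set.mem_insert_of_mem _ h1
        rw [hf v] at h2
        obtain ⟨n, hn⟩ := h2
        exact ⟨n, hn.symm, by rw [hn]; exact h⟩
      · left
        have h2 : u ∈ (insert v {u | r u v} : Set E) := by rw [h1]; exact Set.mem_insert _ _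
        rw [hf v] at h2
        obtain ⟨n, hn⟩ := h2
        exact ⟨n, hn.symm, by rw [hn]; exact h⟩
      · right
        have h2 : v ∈ (insert u {w | r w u} : Set E) := Set.mem_insert_of_mem _ h1
        rw [hf u] at h2
        obtain ⟨n, hn⟩ := h2
        exact ⟨n, hn, by rw [hn]; exact h⟩
    · rintro (⟨n, hn, h⟩ | ⟨n, hn, h⟩)
      · rwa [← hn] at h
      · rwa [hn] at h
  rw [key]
  refine MeasurableSet.union (MeasurableSet.iUnion fun n => ?_) (MeasurableSet.iUnion fun n => ?_)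
  · exact (graph_meas id (fun v => f v n) κ hκ).inter (rect_prod _ _)
  · exact (graph_meas (fun u => f u n) id κ hκ).inter (rect_prod _ _)

/-! ### The counting argument -/

lemma not_capture (hE : #E = 𝔠) (κ : Cardinal.{0}) (h1 : κ ≤ 𝔠) (h2 : 𝔠 < 2 ^ κ)
    (h3 : ((2 : Cardinal.{0}) ^ κ).ord.cof ≤ 𝔠) : ¬ Capture E := by
  intro hC
  have hκ : ℵ₀ ≤ κ := by
    by_contra hlt
    push Not at hlt
    have : (2 : Cardinal.{0}) ^ κ < ℵ₀ := power_lt_aleph0 (natCast_lt_aleph0 (n := 2)) hlt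
    exact absurd (h2.trans this) (not_lt.2 aleph0_le_continuum)
  obtain ⟨Y, hY⟩ : ∃ Y : Set E, #Y = κ := le_mk_iff_exists_set.1 (by rw [hE]; exact h1)
  -- the type of sequences of subsets of `Y`
  have hI : #(ℕ → Set Y) = 2 ^ κ := by
    rw [← power_def, mk_set, hY, ← power_mul, mk_nat, mul_aleph0_eq hκ]
  have hT : #(((2 : Cardinal.{0}) ^ κ).ord.ToType) = 2 ^ κ := by simp
  obtain ⟨φ⟩ : Nonempty (((2 : Cardinal.{0}) ^ κ).ord.ToType ≃ (ℕ → Set Y)) := by
    rw [← Cardinal.eq, hI, hT]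
  obtain ⟨Γ, hΓ, hΓc⟩ := Order.exists_cof_eq (((2 : Cardinal.{0}) ^ κ).ord.ToType)
  rw [Ordinal.cof_toType] at hΓc
  -- initial pieces do not capture all subsets of `Y`
  have hD : ∀ γ : ((2 : Cardinal.{0}) ^ κ).ord.ToType, ∃ D : Set Y, ∀ ξ ≤ γ,
      ¬ MeasurableSet[generateFrom (Set.range (φ ξ))] D := by
    intro γ
    by_contra hcon
    push Not at hcon
    have hsub : (Set.univ : Set (Set Y)) ⊆
        ⋃ ξ : Set.Iic γ, {D | MeasurableSet[generateFrom (Set.range (φ ξ))] D} := by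
      intro D _
      obtain ⟨ξ, hξ, hD⟩ := hcon D
      exact Set.mem_iUnion.2 ⟨⟨ξ, hξ⟩, hD⟩
    have hc1 : #(Set.Iic γ) < 2 ^ κ := by
      have h5 := mk_Iic_lt γ (by rw [hT]; simp) (by rw [hT]; exact hκ.trans (cantor κ).le)
      rwa [hT] at h5
    have hc2 : (2 : Cardinal.{0}) ^ κ ≤ #(Set.Iic γ) * 𝔠 := by
      calc (2 : Cardinal.{0}) ^ κ = #(Set.univ : Set (Set Y)) := by rw [mk_univ, mk_set, hY]
        _ ≤ _ := mk_le_mk_of_subset hsub
        _ ≤ _ := mk_iUnion_le_sum_mk
        _ ≤ _ := sum_le_mk_mul_iSup _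
        _ ≤ _ := by
          gcongr
          apply ciSup_le'
          intro ξ
          apply cardinal_measurableSet_le_continuum
          exact mk_range_le.trans (by simp [aleph0_le_continuum])
    have hc3 : #(Set.Iic γ) * 𝔠 < 2 ^ κ := mul_lt_of_lt (hκ.trans (cantor κ).le) hc1 h2
    exact absurd hc3 (not_lt.2 hc2)
  choose D hD using hD
  -- the family
  obtain ⟨B, hB⟩ := hC ((fun γ : ((2 : Cardinal.{0}) ^ κ).ord.ToType =>
    (Subtype.val '' (D γ) : Set E)) '' Γ) (by
      refine mk_image_le.trans ?_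
      rw [hΓc]
      exact h3)
  let s : ℕ → Set Y := fun n => Subtype.val ⁻¹' (B n)
  obtain ⟨γ, hγΓ, hγ⟩ := hΓ (φ.symm s)
  apply hD γ (φ.symm s) hγ
  rw [Equiv.apply_symm_apply]
  have h4 := hB (Subtype.val '' (D γ)) ⟨γ, hγΓ, rfl⟩
  have h5 : MeasurableSet[(generateFrom (Set.range B)).comap (Subtype.val : Y → E)] (D γ) :=
    ⟨_, h4, Set.preimage_image_eq _ Subtype.val_injective⟩
  rw [comap_generateFrom] at h5
  refine generateFrom_mono ?_ _ h5
  rintro _ ⟨_, ⟨n, rfl⟩, rfl⟩
  exact ⟨n, rfl⟩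

/-- Let `E` have the cardinality of the continuum.  Then the question for `E`, the same question for
the projective sets of the first class only, and the statement that every family of at most
continuum many subsets of `E` lies in a countably generated sigma-algebra are equivalent.  They
follow from the rectangle property of `E × E` (in particular from the continuum hypothesis), and
are equivalent to it if `2 ^ ℵ₁ = 𝔠`.  They fail if `2 ^ κ > 𝔠` for some `κ ≤ 𝔠` such that `2 ^ κ`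
has cofinality at most `𝔠`. -/
theorem result (E : Type) (hE : #E = 𝔠) :
    ((Question E ↔ Capture E) ∧ (QuestionOne E ↔ Capture E)) ∧
    (RectangleProperty E → Question E) ∧
    ((2 : Cardinal.{0}) ^ (ℵ₁ : Cardinal.{0}) = 𝔠 → (Question E ↔ RectangleProperty E)) ∧
    ((𝔠 : Cardinal.{0}) = ℵ₁ → Question E) ∧
    ((∃ κ : Cardinal.{0}, κ ≤ 𝔠 ∧ 𝔠 < 2 ^ κ ∧ ((2 : Cardinal.{0}) ^ κ).ord.cof ≤ 𝔠) →
      ¬ Question E) := by
  have h1 : Question E → Capture E := fun h => capture_of_one hE (one_of_question h)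
  have h2 : Capture E → Question E := question_of_capture
  refine ⟨⟨⟨h1, h2⟩, ⟨capture_of_one hE, fun h => one_of_question (h2 h)⟩⟩,
    fun h => h2 (capture_of_rect hE h), fun h3 => ⟨fun h => rect_of_capture hE h3 (h1 h),
      fun h => h2 (capture_of_rect hE h)⟩, fun h3 => h2 (capture_of_rect hE
      (rect_aleph_one (hE.trans h3))), ?_⟩
  rintro ⟨κ, h3, h4, h5⟩ h
  exact not_capture hE κ h3 h4 h5 (h1 h)

end Pool.Agent.Results.MP_17aaef_lc.CountablyGenerated
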